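import Pool.Agent.helper79.WB.SpecII

set_option autoImplicit false

namespace Pool.Agent.WB

open Filter Topology

theorem NUMA : NUMA_stmt := by
  intro ξ lam δ hl hlx hx1 hδ hδ1
  have h1 := (isLittleO_log_rpow_atTop hδ).bound (show (0 : ℝ) < 1 / 10 by norm_num)
  have h2 := (tendsto_rpow_atTop hδ).eventually_ge_atTop 10
  have h3 := (tendsto_natCast_atTop_atTop (R := ℝ)).eventually (h1.and h2)
  obtain ⟨N₁, hN₁⟩ := eventually_atTop.1 h3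
  refine ⟨max N₁ 1, ?_⟩
  intro N hN r a b θ e hr hθ hθa ha hb he hre
  have hN1 : 1 ≤ N := (le_max_right _ _).trans hN
  obtain ⟨hlog, hpow⟩ := hN₁ N ((le_max_left _ _).trans hN)
  have hNr : (1 : ℝ) ≤ N := by exact_mod_cast hN1
  have hN0 : (0 : ℝ) < N := by linarith
  have hlog' : Real.log N ≤ 1 / 10 * (N : ℝ) ^ δ := by
    have h4 : ‖Real.log (N : ℝ)‖ = Real.log N := by
      rw [Real.norm_eq_abs, abs_of_nonneg (Real.log_nonneg hNr)]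
    have h5 : ‖(N : ℝ) ^ δ‖ = (N : ℝ) ^ δ := by
      rw [Real.norm_eq_abs, abs_of_nonneg (Real.rpow_nonneg hN0.le _)]
    rw [h4, h5] at hlog
    exact hlog
  have ha1 : 1 ≤ a := hθ.trans hθa
  have ha0 : (0 : ℝ) < a := by exact_mod_cast ha1
  have hla : (Nat.log 2 a : ℝ) * Real.log 2 ≤ Real.log a := by
    have h6 : 2 ^ (Nat.log 2 a) ≤ a := Nat.pow_log_le_self 2 (by omega)
    have h7 : ((2 : ℝ)) ^ (Nat.log 2 a) ≤ a := by exact_mod_cast h6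
    have h8 := Real.log_le_log (by positivity) h7
    rw [Real.log_pow] at h8
    exact h8
  have hla2 : Real.log a ≤ 3 * Real.log N := by
    have h9 := Real.log_le_log ha0 ha
    rw [Real.log_rpow hN0] at h9
    have h10 : 0 ≤ Real.log N := Real.log_nonneg hNr
    nlinarith
  have hlg2 : (0.6931471803 : ℝ) < Real.log 2 := Real.log_two_gt_d9
  have hkey : ((Nat.log 2 a : ℝ) + 1) ≤ (N : ℝ) ^ δ := by
    have h11 : (0 : ℝ) ≤ Nat.log 2 a := by positivity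
    nlinarith
  have hNδ : 0 < (N : ℝ) ^ δ := Real.rpow_pos_of_pos hN0 _
  have hre' : (r : ℝ) * (N : ℝ) ^ (2 * ξ + 4 * lam - δ) ≤ (N : ℝ) ^ δ * (2 * (θ : ℝ) * b) := by
    have h12 : (((Nat.log 2 a + 1) * e : ℕ) : ℝ) = ((Nat.log 2 a : ℝ) + 1) * e := by push_cast; ring
    rw [h12] at hre
    have h13 : (e : ℝ) ≤ 2 * (θ : ℝ) * b := by exact_mod_cast he
    calc _ ≤ ((Nat.log 2 a : ℝ) + 1) * e := hre
      _ ≤ (N : ℝ) ^ δ * e := mul_le_mul_of_nonneg_right hkey (by positivity)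
      _ ≤ _ := mul_le_mul_of_nonneg_left h13 hNδ.le
  have hsplit : (N : ℝ) ^ (2 * ξ + 4 * lam - δ) =
      (N : ℝ) ^ δ * (N : ℝ) ^ (2 * ξ + 4 * lam - 2 * δ) := by
    rw [← Real.rpow_add hN0]
    ring_nf
  have hB : (r : ℝ) / 2 * (N : ℝ) ^ (2 * ξ + 4 * lam - 2 * δ) ≤ (θ : ℝ) * (b : ℝ) := by
    rw [hsplit] at hre'
    have h14 : (N : ℝ) ^ δ * ((r : ℝ) * (N : ℝ) ^ (2 * ξ + 4 * lam - 2 * δ)) ≤
        (N : ℝ) ^ δ * (2 * (θ : ℝ) * b) := by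
      calc _ = (r : ℝ) * ((N : ℝ) ^ δ * (N : ℝ) ^ (2 * ξ + 4 * lam - 2 * δ)) := by ring
        _ ≤ _ := hre'
    have h15 := le_of_mul_le_mul_left h14 hNδ
    linarith
  refine ⟨?_, hB⟩
  have hθ0 : (0 : ℝ) ≤ θ := by positivity
  have h16 : (r : ℝ) / 2 * (N : ℝ) ^ (2 * ξ + 4 * lam - 2 * δ) ≤
      (θ : ℝ) * (N : ℝ) ^ (2 * ξ + 2 * lam + δ) :=
    hB.trans (mul_le_mul_of_nonneg_left hb hθ0)
  have hP : 0 < (N : ℝ) ^ (2 * ξ + 2 * lam + δ) := Real.rpow_pos_of_pos hN0 _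
  have hs2 : (N : ℝ) ^ (2 * ξ + 4 * lam - 2 * δ) =
      (N : ℝ) ^ (2 * lam - 4 * δ) * (N : ℝ) ^ δ * (N : ℝ) ^ (2 * ξ + 2 * lam + δ) := by
    rw [← Real.rpow_add hN0, ← Real.rpow_add hN0]
    ring_nf
  have h17 : (r : ℝ) / 2 * ((N : ℝ) ^ (2 * lam - 4 * δ) * (N : ℝ) ^ δ) ≤ θ := by
    rw [hs2] at h16
    have h18 : ((r : ℝ) / 2 * ((N : ℝ) ^ (2 * lam - 4 * δ) * (N : ℝ) ^ δ)) *
        (N : ℝ) ^ (2 * ξ + 2 * lam + δ) ≤ (θ : ℝ) * (N : ℝ) ^ (2 * ξ + 2 * lam + δ) := by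
      calc _ = (r : ℝ) / 2 * ((N : ℝ) ^ (2 * lam - 4 * δ) * (N : ℝ) ^ δ *
            (N : ℝ) ^ (2 * ξ + 2 * lam + δ)) := by ring
        _ ≤ _ := h16
    exact le_of_mul_le_mul_right h18 hP
  have hQ : 0 ≤ (r : ℝ) * (N : ℝ) ^ (2 * lam - 4 * δ) := by positivity
  have h19 : (r : ℝ) / 2 * ((N : ℝ) ^ (2 * lam - 4 * δ) * (N : ℝ) ^ δ) =
      ((r : ℝ) * (N : ℝ) ^ (2 * lam - 4 * δ)) * ((N : ℝ) ^ δ / 2) := by ring
  rw [h19] at h17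
  nlinarith

end Pool.Agent.WB
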